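import Pool.Agent.T9h23.Dv.V5

/-!
# Hall's inequality, with an exponent above `1 / 2`, at all values of `g + q` for almost all integers `q`

Let `g` be ANY monic integer polynomial of degree `d` divisible by `3`. There is a constant `C > 0`, which depends on
`g` only (`C = 1 / 206` if `d = 3`), such that for all but `O (H ^ (5 / 9 + 1 / d + ε))` of the integers `|q| ≤ H`
`|y ^ 2 - x ^ 3| > C |x| ^ (1 / 2 + 3 / (2 d))`
for ALL integers `x` and ALL `y = g (n) + q`, `n` an integer of any size, with `y ^ 2 ≠ x ^ 3`.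

* large `n`, `|n| ≥ C H ^ (5 / 9 + 1 / d)`: let `p` be the polynomial part of `g ^ (2 / 3)`, with rational coefficients,
  `g ^ 2 - p ^ 3 = -2 g q₀ + ρ`, `deg q₀ < d / 3`, `deg ρ < d` (`T9h23.Dv.exists_root`). If `x ≠ p (n)`, or `x = p (n)`
  and `q ≠ q₀ (n)`, then `|y ^ 2 - x ^ 3|` is large (`T9h23.Dv.largeD`); and if `x = p (n)`, `q = q₀ (n)` then it is the
  value of `(g + q₀) ^ 2 - p ^ 3`, of degree at least `d / 3 + 1` by Davenport's inequality (`T9h23.Dv.davenport`). For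
  `d = 3` an exact formula is used (`T9h23.Dv.core`, `T9h23.Dv.large3`), which needs `n ≥ C H ^ (2 / 3)` only.
* smaller `n` (`T9h23.Dv.mid1`): for `|n| ^ d ≤ C H` the count `O (Y ^ (5 / 9 + ε))` of the ordinates `|y| ≤ Y` of the
  points with `32 |y ^ 2 - x ^ 3| < |x|` (`T9h23.Ru.countE`, from a starting file); for the larger ones its version in
  short intervals, at most `20 (T w ^ (-4 / 9) + 1)` such ordinates in `[w - T, w + T]` (`T9h23.Pe.winE`).
-/

set_option autoImplicit false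

namespace Pool.Agent.Results.MP_e734ed_nt.AllConstantPerturbations

open Finset Polynomial
open scoped Classical

/-- `|y ^ 2 - x ^ 3| > c |x| ^ s` for all integers `x` and all values `y` of the polynomial with `y ^ 2 ≠ x ^ 3` -/
def HallAtAllValues (f : ℤ[X]) (c s : ℝ) : Prop := ∀ n x : ℤ, (f.eval n) ^ 2 ≠ x ^ 3 →
  c * |(x : ℝ)| ^ s < |((f.eval n : ℤ) : ℝ) ^ 2 - (x : ℝ) ^ 3|

/-- **Hall's inequality at all values of almost all constant perturbations.** -/
theorem result (g : ℤ[X]) (hg : g.Monic) (h3 : 3 ∣ g.natDegree) (h0 : g.natDegree ≠ 0) :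
    ∃ c : ℝ, 0 < c ∧ (g.natDegree = 3 → c = 1 / 206) ∧ ∀ ε : ℝ, 0 < ε → ∃ K : ℝ, ∀ H : ℕ, 1 ≤ H →
      (((Icc (-(H : ℤ)) H).filter (fun q => ¬ HallAtAllValues (g + C q) c (1 / 2 + 3 / (2 * g.natDegree)))).card : ℝ) ≤
        K * (H : ℝ) ^ (5 / 9 + 1 / (g.natDegree : ℝ) + ε) := by
  obtain ⟨e, he⟩ := h3
  have he1 : 1 ≤ e := by omega
  obtain ⟨A, hA, hA1, h⟩ := T9h23.Dv.final e he1 g hg he
  obtain ⟨c, hc0, hc3, hc⟩ : ∃ c : ℝ, 0 < c ∧ (g.natDegree = 3 → c = 1 / 206) ∧ ∀ X k : ℝ, 0 ≤ X → 1 ≤ k →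
      X ^ (e + 1) ≤ A * k ^ (2 * e) → c * X ^ (1 / 2 + 3 / (2 * (g.natDegree : ℝ))) < k := by
    have her : (1 : ℝ) ≤ e := by exact_mod_cast he1
    have hs : 1 / 2 + 3 / (2 * (g.natDegree : ℝ)) = ((e + 1 : ℕ) : ℝ) / ((2 * e : ℕ) : ℝ) := by
      rw [he]
      push_cast
      have : (e : ℝ) ≠ 0 := by positivity
      field_simp
    have hpow : ∀ X : ℝ, 0 ≤ X → (X ^ (1 / 2 + 3 / (2 * (g.natDegree : ℝ)))) ^ (2 * e) = X ^ (e + 1) := by
      intro X hX
      rw [hs, ← Real.rpow_natCast, ← Real.rpow_mul hX, div_mul_cancel₀ _ (by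
        have : 2 * e ≠ 0 := by omega
        exact_mod_cast this), Real.rpow_natCast]
    by_cases hd : e = 1
    · refine ⟨1 / 206, by norm_num, fun _ => rfl, ?_⟩
      intro X k hX hk hle
      rw [← hpow X hX, hA1 hd, hd] at hle
      have h1 : X ^ (1 / 2 + 3 / (2 * (g.natDegree : ℝ))) < 206 * k := by
        by_contra hcon
        push Not at hcon
        have h2 : (206 * k) ^ 2 ≤ (X ^ (1 / 2 + 3 / (2 * (g.natDegree : ℝ)))) ^ 2 := by gcongr
        have h3 : (206 * k) ^ 2 ≤ (203 ^ 2 + 32 ^ 2) * k ^ 2 := h2.trans hle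
        nlinarith
      linarith
    · refine ⟨1 / (A + 1), by positivity, fun h => by omega, ?_⟩
      intro X k hX hk hle
      have h1 : X ^ (1 / 2 + 3 / (2 * (g.natDegree : ℝ))) ≤ A * k := by
        by_contra hcon
        push Not at hcon
        have h2 : (A * k) ^ (2 * e) < (X ^ (1 / 2 + 3 / (2 * (g.natDegree : ℝ)))) ^ (2 * e) :=
          pow_lt_pow_left₀ hcon (by positivity) (by omega)
        rw [hpow X hX, mul_pow] at h2
        have h3 : A ≤ A ^ (2 * e) := le_self_pow₀ hA (by omega)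
        have h4 : A * k ^ (2 * e) ≤ A ^ (2 * e) * k ^ (2 * e) := by gcongr
        linarith
      rw [div_mul_eq_mul_div, one_mul, div_lt_iff₀ (by positivity)]
      nlinarith
  refine ⟨c, hc0, hc3, ?_⟩
  intro ε hε
  obtain ⟨K, -, hK⟩ := h ε hε
  refine ⟨K, fun H hH => ?_⟩
  have h1 := hK H hH
  have h2 : T9h23.Dv.tq e + ε = 5 / 9 + 1 / (g.natDegree : ℝ) + ε := by
    unfold T9h23.Dv.tq
    rw [he]
    push_cast
    ring
  rw [h2] at h1
  refine le_trans ?_ h1
  have h3 : (Icc (-(H : ℤ)) H).filter (fun q => ¬ HallAtAllValues (g + C q) c (1 / 2 + 3 / (2 * g.natDegree))) ⊆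
      (Icc (-(H : ℤ)) H).filter (fun q => ¬ T9h23.Dv.Good e A g q) := by
    intro q hq
    rw [mem_filter] at hq ⊢
    refine ⟨hq.1, ?_⟩
    intro hgood
    apply hq.2
    intro n x hne
    rw [eval_add, eval_C] at hne ⊢
    have h4 := hgood n x hne
    have hk1 : (1 : ℝ) ≤ |(((g.eval n + q) ^ 2 - x ^ 3 : ℤ) : ℝ)| := by
      have : 1 ≤ |(g.eval n + q) ^ 2 - x ^ 3| := Int.one_le_abs (sub_ne_zero.2 hne)
      exact_mod_cast this
    have h5 := hc _ _ (abs_nonneg (x : ℝ)) hk1 h4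
    push_cast at h5 ⊢
    exact h5
  exact_mod_cast Finset.card_le_card h3

end Pool.Agent.Results.MP_e734ed_nt.AllConstantPerturbations
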