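import Pool.Agent.T9h23.Ha.Y3

/-!
# The weak form of Hall's conjecture for all ordinates in the value sets of almost all monic cubic polynomials

For all but a power saving proportion of the polynomials `f = t ^ 3 + a t ^ 2 + b t + c` with integral
coefficients `|a|, |b|, |c| ≤ H` one has `|y ^ 2 - x ^ 3| ≥ |x| ^ (1 / 2 - ε)` for ALL integers `x` and ALL values
`y = f(n)`, `n` any integer (not only `|n| ≤ N`), with `y ^ 2 ≠ x ^ 3`.

The proof. For `|n| ≤ 34 H ^ 3` there are at most `Y ^ (2 / 9 - δ / 18)` exceptional ordinates `|y| ≤ Y` (starting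
files `SparseExceptions`, `WindowsWithoutExceptions`), and each is a value of few of the polynomials at large
arguments. For larger `n` put `T = 3 n + a`, so that `27 y = T ^ 3 + P T + Q` with the invariants `P = 9 b - 3 a ^ 2`,
`Q = 27 c - 9 a b + 2 a ^ 3` of `f`; then `|y ^ 2 - x ^ 3| ≥ |x|` for all `x`, if `|T| ≥ 100 H ^ 3` and `|Q| ≥ H ^ 2`,
because `27 x` is either equal to `3 T ^ 2 + 2 P` or differs from it by at least one (elementary). The two ranges meet
exactly.
-/

set_option autoImplicit false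

namespace Pool.Agent.Results.MP_e734ed_nt.AllValuesOfCubics

/-- `|y ^ 2 - x ^ 3| ≥ |x| ^ (1 / 2 - ε)` for all integers `x` and all ordinates
`y = n ^ 3 + a n ^ 2 + b n + c`, `n` any integer, with `y ^ 2 ≠ x ^ 3` -/
def HallAtValues (ε : ℝ) (a b c : ℤ) : Prop :=
  ∀ n x y : ℤ, y = n ^ 3 + a * n ^ 2 + b * n + c → y ^ 2 ≠ x ^ 3 →
    |(x : ℝ)| ^ (1 / 2 - ε) ≤ |(y : ℝ) ^ 2 - (x : ℝ) ^ 3|

/-- **Hall's conjecture, weak form, at all values of almost all monic cubic polynomials.** -/
theorem result (ε : ℝ) (hε : 0 < ε) : ∃ η : ℝ, 0 < η ∧ ∃ H₀ : ℕ, ∀ H : ℕ, H₀ ≤ H →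
    ({v : ℤ × ℤ × ℤ | |v.1| ≤ H ∧ |v.2.1| ≤ H ∧ |v.2.2| ≤ H ∧ ¬ HallAtValues ε v.1 v.2.1 v.2.2}.ncard : ℝ) ≤
      (H : ℝ) ^ (3 - η) := by
  classical
  set δ : ℝ := min ε (1 / 2) with hδ
  have hδ0 : 0 < δ := lt_min hε (by norm_num)
  have hδ1 : δ ≤ 1 / 2 := min_le_right _ _
  have hδε : δ ≤ ε := min_le_left _ _
  obtain ⟨H0, hH0⟩ := T9h23.Ha.cubics δ hδ0 hδ1
  refine ⟨δ / 8, by positivity, H0, ?_⟩
  intro H hH
  refine le_trans ?_ (hH0 H hH)
  have h3 : {v : ℤ × ℤ × ℤ | |v.1| ≤ H ∧ |v.2.1| ≤ H ∧ |v.2.2| ≤ H ∧ ¬ HallAtValues ε v.1 v.2.1 v.2.2}.ncard ≤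
      (((T9h23.Op.box 3 H).filter (fun a => ∃ n : ℤ, T9h23.Ha.BadY δ (T9h23.Ha.cv a n)) : Finset _) :
        Set (Fin 3 → ℤ)).ncard := by
    apply Set.ncard_le_ncard_of_injOn (fun v => ![v.2.2, v.2.1, v.1]) (ht := Finset.finite_toSet _)
    · rintro ⟨a, b, c⟩ hv
      obtain ⟨hv1, hv2, hv3, hv4⟩ := hv
      dsimp only at hv1 hv2 hv3 hv4
      rw [Finset.mem_coe, Finset.mem_filter, T9h23.Op.mem_box]
      refine ⟨?_, ?_⟩
      · intro i
        fin_cases i
        · exact hv3
        · exact hv2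
        · exact hv1
      · unfold HallAtValues at hv4
        push Not at hv4
        obtain ⟨n, x, y, hy, hne, hlt⟩ := hv4
        have e1 : T9h23.Ha.cv ![c, b, a] n = y := by
          unfold T9h23.Ha.cv
          rw [T9h23.Ha.ev3, hy]
          simp only [Matrix.cons_val_zero, Matrix.cons_val_one, Matrix.cons_val]
          ring
        refine ⟨n, x, ?_, ?_⟩
        · dsimp only
          rw [e1]; exact hne
        · dsimp only
          rw [e1]
          refine hlt.trans_le ?_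
          rcases eq_or_ne x 0 with h0 | h0
          · -- impossible: the left side is positive
            exfalso
            rw [h0] at hlt hne
            have h1 : (1 : ℝ) ≤ |(y : ℝ) ^ 2 - ((0 : ℤ) : ℝ) ^ 3| := by
              have h2 : 1 ≤ |y ^ 2 - 0 ^ 3| := Int.one_le_abs (sub_ne_zero.2 hne)
              exact_mod_cast h2
            have h2 : |((0 : ℤ) : ℝ)| ^ (1 / 2 - ε) ≤ 1 := by
              rw [Int.cast_zero, abs_zero]
              exact Real.zero_rpow_le_one _
            exact absurd (h1.trans_lt (hlt.trans_le h2)) (lt_irrefl _)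
          · have h1 : (1 : ℝ) ≤ |(x : ℝ)| := by
              have : 1 ≤ |x| := Int.one_le_abs h0
              exact_mod_cast this
            exact Real.rpow_le_rpow_of_exponent_le h1 (by linarith)
    · rintro ⟨a, b, c⟩ _ ⟨a', b', c'⟩ _ h
      dsimp only at h
      have h0 := congrFun h 0
      have h1 := congrFun h 1
      have h2 := congrFun h 2
      simp only [Matrix.cons_val_zero, Matrix.cons_val_one, Matrix.cons_val] at h0 h1 h2
      rw [h0, h1, h2]
  rw [Set.ncard_coe_finset] at h3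
  exact_mod_cast h3

end Pool.Agent.Results.MP_e734ed_nt.AllValuesOfCubics
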