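import Mathlib
import Pool.Agent.T9h61.Rep2

/-!
# Violations of Hall's inequality repel each other

Two integral points near the curve `y ^ 2 = x ^ 3`, on arbitrary (different) Mordell curves
`y ^ 2 = x ^ 3 + k`, `y ^ 2 = x ^ 3 + k'` with `|k|, |k'| ≤ min(x, x') ^ (3/4) / 1000`, satisfy
`|x' - x| ≥ (2 min(x, x')) ^ (1/4)`. This applies in particular to all large violations of the weak
form of Hall's conjecture (there `|k| ≤ C x ^ (1/2 - ε)`). More generally, for all positive integers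
`p`, `q` with `p ^ 6 |k|, q ^ 6 |k'| ≤ X ^ (3/4) / 1000`, `X = min(p ^ 2 x, q ^ 2 x')`, one has
`|q ^ 2 x' - p ^ 2 x| ≥ (2 X) ^ (1/4)` unless the two points are proportional in the sense
`(p ^ 2 x, p ^ 3 |y|) = (q ^ 2 x', q ^ 3 |y'|)`: the quotient `x' / x` is kept away from the squares
of the rational numbers of small height. The exponent `1/4` is sharp in the range
`|k| ≤ x ^ (3/4)`.

Idea of the proof (`p = q = 1`, `x < x'`). Let `h = x' - x` and `m = y' - y`. The integer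
`18 (x + x') h ^ 2 - 16 m ^ 2` is even and equals
`(√x' - √x) ^ 4 (3 (√x + √x') ^ 2 - (√x' - √x) ^ 2) ≈ (3/4) h ^ 4 / x` up to a small error, so it
vanishes when `h ^ 4 < 2 x`. Then `2 (x + x')` is the square of an even integer, so that
`x = r ^ 2 - g`, `x' = r ^ 2 + g`, `m = 3 g r`, and
`4 k = n (4 r ^ 3 - 6 g r + n) - g ^ 2 (3 r ^ 2 - 4 g)` with an integer `n`; this is too large, both
for `n ≠ 0` and for `n = 0`.
-/

set_option autoImplicit false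

namespace Pool.Agent.Results.MP_e734ed_nt.Repulsion

/-- (1) Repulsion, with the constant `10 ^ 12 = 1000 ^ 4`; for `p = q = 1` and `x < x'` it reads: if
`|y ^ 2 - x ^ 3|` and `|y' ^ 2 - x' ^ 3|` are at most `x ^ (3/4) / 1000` then
`x' - x ≥ (2 x) ^ (1/4)`.
(2) The exponent `1/4` is sharp: for every `u ≥ 1` there are such points with
`x ≥ u ^ 4`, `x' - x = 8 u` and `|y ^ 2 - x ^ 3|, |y' ^ 2 - x' ^ 3| ≤ x ^ (3/4)`. -/
theorem result :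
    (∀ x y x' y' p q : ℤ, 0 < x → 0 < x' → 0 < p → 0 < q →
      10 ^ 12 * (p ^ 6 * (y ^ 2 - x ^ 3)) ^ 4 ≤ (min (p ^ 2 * x) (q ^ 2 * x')) ^ 3 →
      10 ^ 12 * (q ^ 6 * (y' ^ 2 - x' ^ 3)) ^ 4 ≤ (min (p ^ 2 * x) (q ^ 2 * x')) ^ 3 →
      (p ^ 2 * x = q ^ 2 * x' ∧ p ^ 3 * |y| = q ^ 3 * |y'|) ∨
        2 * min (p ^ 2 * x) (q ^ 2 * x') ≤ (q ^ 2 * x' - p ^ 2 * x) ^ 4) ∧
    (∀ u : ℤ, 1 ≤ u → ∃ x y x' y' : ℤ, u ^ 4 ≤ x ∧ x' - x = 8 * u ∧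
      (y ^ 2 - x ^ 3) ^ 4 ≤ x ^ 3 ∧ (y' ^ 2 - x' ^ 3) ^ 4 ≤ x ^ 3) := by
  refine ⟨Pool.Agent.T9h61.Rep.scaled, ?_⟩
  intro u hu
  have e1 : (216 * u ^ 6 - 36 * u ^ 3 + 1) ^ 2 - (36 * u ^ 4 - 4 * u) ^ 3 = 1 - 8 * u ^ 3 := by ring
  have e2 : (216 * u ^ 6 + 36 * u ^ 3 + 1) ^ 2 - (36 * u ^ 4 + 4 * u) ^ 3 = 1 + 8 * u ^ 3 := by ring
  have hu3 : 1 ≤ u ^ 3 := one_le_pow₀ hu
  have hu4 : u ≤ u ^ 4 := le_self_pow₀ hu (by norm_num)
  have hx : (32 * u ^ 4) ^ 3 ≤ (36 * u ^ 4 - 4 * u) ^ 3 := by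
    apply pow_le_pow_left₀ (by positivity)
    linarith
  have hk : (1 + 8 * u ^ 3) ^ 4 ≤ (9 * u ^ 3) ^ 4 := by
    apply pow_le_pow_left₀ (by positivity)
    linarith
  have hk' : (8 * u ^ 3 - 1) ^ 4 ≤ (9 * u ^ 3) ^ 4 := by
    apply pow_le_pow_left₀ (by linarith)
    linarith
  have e3 : (9 * u ^ 3) ^ 4 = 6561 * u ^ 12 := by ring
  have e4 : (32 * u ^ 4) ^ 3 = 32768 * u ^ 12 := by ring
  have h0 : 0 ≤ u ^ 12 := by positivity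
  refine ⟨36 * u ^ 4 - 4 * u, 216 * u ^ 6 - 36 * u ^ 3 + 1, 36 * u ^ 4 + 4 * u,
    216 * u ^ 6 + 36 * u ^ 3 + 1, by linarith, by ring, ?_, ?_⟩
  · rw [e1, show (1 - 8 * u ^ 3) ^ 4 = (8 * u ^ 3 - 1) ^ 4 by ring]
    linarith
  · rw [e2]
    linarith

end Pool.Agent.Results.MP_e734ed_nt.Repulsion
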