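import Mathlib
import Pool.Agent.T9h61.StrongC

/-!
# Strong repulsion of the violations of Hall's inequality

Two integral points near the curve `y ^ 2 = x ^ 3`, on arbitrary (possibly different) Mordell curves
`y ^ 2 = x ^ 3 + k`, `y ^ 2 = x ^ 3 + k'` with `|k|, |k'| ≤ K`, satisfy
`x' - x ≥ c min ((x / K) ^ (1/2), (x ^ 2 / K) ^ (1/5))`. Hence two violations of
`|y ^ 2 - x ^ 3| > C x ^ e` are at distance at least `c x ^ min ((1 - e) / 2, (2 - e) / 5)`. This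
exponent is `1/4` for `e = 1/2` (Hall's exponent), it is larger than `1/4` as soon as `e < 1/2` (the
weak form), it is `1/3` at `e = 1/3` and it tends to `2/5` as `e → 0`.

Idea of the proof. Let `h = x' - x`, `m = y' - y`, `w = 2 (x + x')`, `κ = k' - k`, `σ = k + k'`. For
points on the curve, `u = y / x`, `ε = u' - u ≈ h / w ^ (1/2)`, there are polynomials
in `h, m, w` with integer coefficients of size `ε ^ 4 w`, `ε ^ 6 w`, `ε ^ 10 w`; for points near the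
curve they have to be corrected by terms with `κ` and `σ`:
`A = 9 h ^ 2 w - 16 m ^ 2`, `j = 3 h ^ 4 - A w - 96 κ h`, `l = 2 A ^ 2 + 9 h ^ 2 j + 864 A σ`.
They are integers. If `K h ^ 2 ≪ w` and `h ^ 3 ≪ w` then `j = 0`; if `K h ^ 2 ≪ w ≪ h ^ 3` and
`K h ^ 5 ≪ w ^ 2` then `l = 0`. In both cases this determines the next terms of the expansions, and
these give a contradiction.
-/

set_option autoImplicit false

namespace Pool.Agent.Results.MP_e734ed_nt.StrongRepulsion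

/-- (1) If `0 < x < x'`, `|y ^ 2 - x ^ 3| ≤ K`, `|y' ^ 2 - x' ^ 3| ≤ K` then
`x' - x > min ((x / (1000 K)) ^ (1/2), (x ^ 2 / (10 ^ 7 K)) ^ (1/5))`.
(2) Two violations of `|y ^ 2 - x ^ 3| > C x ^ e` are at distance
`≥ c x ^ min ((1 - e) / 2, (2 - e) / 5)`, `c = c(C) > 0`. -/
theorem result :
    (∀ x y x' y' K : ℤ, 0 < x → x < x' → 1 ≤ K →
      |y ^ 2 - x ^ 3| ≤ K → |y' ^ 2 - x' ^ 3| ≤ K →
      x < 1000 * K * (x' - x) ^ 2 ∨ x ^ 2 < 10 ^ 7 * K * (x' - x) ^ 5) ∧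
    (∀ C e : ℝ, 0 < C → 0 ≤ e → e ≤ 1 →
      ∃ c : ℝ, 0 < c ∧ ∀ x y x' y' : ℤ, 0 < x → x < x' →
        (|y ^ 2 - x ^ 3| : ℝ) ≤ C * (x : ℝ) ^ e → (|y' ^ 2 - x' ^ 3| : ℝ) ≤ C * (x' : ℝ) ^ e →
        c * (x : ℝ) ^ min ((1 - e) / 2) ((2 - e) / 5) ≤ (x' : ℝ) - x) :=
  ⟨Pool.Agent.T9h61.Strong.main', Pool.Agent.T9h61.Strong.powers⟩

end Pool.Agent.Results.MP_e734ed_nt.StrongRepulsion
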